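import Pool.Agent.H4.TA.Targets

/-!
# Row FLO: the boundary from below
-/

set_option autoImplicit false

open Finset Pool.Agent.H43.TC Pool.Agent.H4.TA

namespace Pool.Agent.H49.TA

theorem pf_FLO (hBOX : T_BOX) (hLOW : T_LOW) (hRGR : T_RGR) (hLIL : T_LIL) : T_FLO := by
  intro k ε hk hε
  obtain ⟨M, T, e, hM1, he, hL⟩ := hLIL (min ε (1 / 10)) (lt_min hε (by norm_num))
  have hM2 : 2 ≤ M := by
    by_contra hM
    have hM0 : M = 1 := by omega
    subst hM0
    have h := hL T (T / (2 * 1) + 1) (T / (2 * (T / (2 * 1) + 1)) + 1) 1 1 le_rfl rfl rfl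
      zero_le_one zero_le_one (by
        have h1 : T + 1 ≤ 2 * (T / (2 * 1) + 1) + 1 := by omega
        have h2 : ((T : ℝ) + 1) ≤ 2 * ((T / (2 * 1) + 1 : ℕ) : ℝ) + 1 := by exact_mod_cast h1
        have h3 : (0 : ℝ) ≤ 2 * ((T / (2 * 1) + 1 : ℕ) : ℝ) + 1 := by positivity
        rw [one_mul, mul_one]
        nlinarith)
    rw [sub_self, max_self, zero_pow (Nat.succ_ne_zero _)] at h
    have h5 : Real.exp (-1) ≤ 1 / 10 := by
      have := min_le_right ε (1 / 10 : ℝ)
      linarith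
    have h6 : (1 : ℝ) / 10 < Real.exp (-1) := by
      rw [Real.exp_neg, ← one_div]
      have := Real.exp_one_lt_d9
      refine one_div_lt_one_div_of_lt (Real.exp_pos 1) (by linarith)
    linarith
  obtain ⟨hr1, -, hr3⟩ := hRGR k hk
  obtain ⟨t0, ht0⟩ := hr3 M e hM1 he
  refine ⟨max (max t0 T) 4, ?_⟩
  intro t ht x y hxy
  have ht1 : t0 ≤ t := (le_max_left _ _).trans ((le_max_left _ _).trans ht)
  have ht2 : T ≤ t := (le_max_right _ _).trans ((le_max_left _ _).trans ht)
  have ht4 : 4 ≤ t := (le_max_right _ _).trans ht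
  have hk0 : 0 < k := by omega
  obtain ⟨-, hx1, -, -⟩ := hBOX k t x y hk0 hxy
  obtain ⟨h, hh⟩ : ∃ h, h = t / (2 * M) + 1 := ⟨_, rfl⟩
  obtain ⟨r, hr⟩ : ∃ r, r = t / (2 * h) + 1 := ⟨_, rfl⟩
  have hh1 : 1 ≤ h := by
    rw [hh]
    exact Nat.le_add_left 1 _
  have hdiv : t / (2 * M) ≤ t / 4 := Nat.div_le_div_left (by omega) (by norm_num)
  have h2h : 2 * h ≤ t := by
    rw [hh]
    generalize t / (2 * M) = q at hdiv
    omega
  have htr : t ≤ 2 * h * r := by
    have := Nat.lt_mul_div_succ t (show 0 < 2 * h by omega)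
    rw [hr]
    exact this.le
  have htM : t ≤ M * (2 * h) := by
    have := Nat.lt_mul_div_succ t (show 0 < 2 * M by omega)
    rw [hh]
    calc t ≤ 2 * M * (t / (2 * M) + 1) := this.le
      _ = M * (2 * (t / (2 * M) + 1)) := by ring
  have hx0 : 0 ≤ 1 - x := by linarith
  have hg := ht0 t (2 * h) ht1 h2h htM
  have h3 := hL t h r ((rng k (2 * h) - 1) * (1 - x)) (rng k t * (1 - x)) ht2 hh hr
    (mul_nonneg (by linarith [hr1 (2 * h)]) hx0)
    (mul_nonneg (by linarith [hr1 t]) hx0) (by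
      push_cast at hg
      have ht' : (0 : ℝ) ≤ (t : ℝ) + 1 := by positivity
      calc (rng k (2 * h) - 1) * (1 - x) * (t + 1)
          ≤ rng k (2 * h) * (1 - x) * (t + 1) := by
            refine mul_le_mul_of_nonneg_right ?_ ht'
            exact mul_le_mul_of_nonneg_right (by linarith) hx0
        _ = (rng k (2 * h) * (t + 1)) * (1 - x) := by ring
        _ ≤ ((1 + e) * ((2 * h + 1) * rng k t)) * (1 - x) :=
            mul_le_mul_of_nonneg_right hg hx0
        _ = (1 + e) * ((2 * h + 1) * (rng k t * (1 - x))) := by ring)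
  have h4 := hLOW k t h r x y hk0 hh1 h2h htr hxy
  have h5 := min_le_left ε (1 / 10 : ℝ)
  linarith

end Pool.Agent.H49.TA
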