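import Pool.Agent.H4.TA.Targets

/-!
# Row RCD: the number of different points is the number of new points
-/

set_option autoImplicit false

open Finset Pool.Agent.H43.TC Pool.Agent.H4.TA

namespace Pool.Agent.H49.TA

theorem pf_RCD : T_RCD := by
  intro k t w
  have key : ∀ n : ℕ, ((((range n).image (pos w)).card : ℕ) : ℝ) =
      ∑ i ∈ range n, ind (Nw w i) := by
    intro n
    induction n with
    | zero => simp
    | succ n ih =>
      rw [sum_range_succ, ← ih, range_add_one, image_insert]
      by_cases h : pos w n ∈ (range n).image (pos w)
      · rw [insert_eq_of_mem h, ind_false, add_zero]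
        intro hN
        obtain ⟨l, hl, hl2⟩ := mem_image.mp h
        exact hN l (mem_range.mp hl) hl2
      · rw [card_insert_of_notMem h, ind_true]
        · push_cast
          ring
        · intro l hl hl2
          exact h (mem_image.mpr ⟨l, mem_range.mpr hl, hl2⟩)
  exact key (t + 1)

end Pool.Agent.H49.TA
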