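import Pool.Agent.H4.TA.Targets

/-!
# Row PLC: bound for the return probabilities
-/

set_option autoImplicit false

open Finset Pool.Agent.H43.TC Pool.Agent.H4.TA

namespace Pool.Agent.H49.TA

theorem sum_words (k j : ℕ) (f : Wd k j → ℝ) :
    ∑ w, f w = ∑ d : Fin j → Fin k, ∑ ε : Fin j → Bool, f (fun l => (d l, ε l)) := by
  rw [← Fintype.sum_prod_type']
  exact (Equiv.sum_comp (Equiv.arrowProdEquivProdArrow (Fin j) (fun _ => Fin k)
    (fun _ => Bool)).symm f).symm

theorem pf_PLC (hTWO : T_TWO) (hBNM : T_BNM) : T_PLC := by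
  intro k j hk
  have hk0 : (0 : ℝ) < k := by
    have : 0 < k := by omega
    exact_mod_cast this
  let a : Fin k := ⟨0, by omega⟩
  let b : Fin k := ⟨1, by omega⟩
  have hab : a ≠ b := by
    intro h
    have := congrArg Fin.val h
    simp [a, b] at this
  unfold pp av
  have h2 : (0 : ℝ) < (2 * k : ℝ) ^ j := by positivity
  have hj : (0 : ℝ) < (j : ℝ) + 1 := by positivity
  rw [div_le_div_iff₀ h2 hj, sum_words]
  have h3 : ∑ d : Fin j → Fin k, ∑ ε : Fin j → Bool,
      ind (pos (fun l => (d l, ε l) : Wd k j) j = 0) ≤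
      2 ^ j * ((k : ℝ) ^ (j + 1) / (j + 1)) := by
    calc ∑ d : Fin j → Fin k, ∑ ε : Fin j → Bool,
          ind (pos (fun l => (d l, ε l) : Wd k j) j = 0)
        ≤ ∑ d : Fin j → Fin k, (2 ^ j * (1 / (2 * ((dn d a : ℝ) + 1)) +
            1 / (2 * ((dn d b : ℝ) + 1)))) := sum_le_sum fun d _ => hTWO k j d a b hab
      _ = 2 ^ j * ((∑ d : Fin j → Fin k, 1 / ((dn d a : ℝ) + 1)) / 2 +
            (∑ d : Fin j → Fin k, 1 / ((dn d b : ℝ) + 1)) / 2) := by
          rw [← mul_sum, sum_add_distrib, sum_div, sum_div]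
          congr 2
          · refine sum_congr rfl fun d _ => ?_
            rw [div_div, mul_comm (2 : ℝ)]
          · refine sum_congr rfl fun d _ => ?_
            rw [div_div, mul_comm (2 : ℝ)]
      _ ≤ 2 ^ j * ((k : ℝ) ^ (j + 1) / (j + 1)) := by
          refine mul_le_mul_of_nonneg_left ?_ (by positivity)
          have e1 := hBNM k j a
          have e2 := hBNM k j b
          linarith
  calc (∑ d : Fin j → Fin k, ∑ ε : Fin j → Bool,
        ind (pos (fun l => (d l, ε l) : Wd k j) j = 0)) * ((j : ℝ) + 1)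
      ≤ (2 ^ j * ((k : ℝ) ^ (j + 1) / (j + 1))) * ((j : ℝ) + 1) :=
        mul_le_mul_of_nonneg_right h3 hj.le
    _ = (k : ℝ) * (2 * k : ℝ) ^ j := by
        rw [mul_assoc, div_mul_cancel₀ _ hj.ne', mul_pow, pow_succ]
        ring

end Pool.Agent.H49.TA
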